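import Pool.Agent.H8.MC.Targets

/-!
# CON: connected sets
-/

set_option autoImplicit false

namespace Pool.Agent.H54.MC

open Pool.Agent.H8.MC Pool.Agent.H69.VR Pool.Agent.H8.VR Pool.Agent.H69.Sp

/-- CON -/
theorem pf_con : T_CON := by
  intro V G S
  constructor
  · intro h
    obtain ⟨a0⟩ := h.nonempty
    refine ⟨⟨a0.1, a0.2⟩, ?_⟩
    rintro Y ⟨c, hcY, hcS⟩ hY a ha
    have key : ∀ u v : S, (G.induce S).Walk u v → u.1 ∈ Y → v.1 ∈ Y := by
      intro u v w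
      induction w with
      | nil => exact fun hu => hu
      | @cons u v w huv _ ih => exact fun hu => ih (hY u.1 v.1 hu u.2 v.2 huv)
    obtain ⟨w⟩ := h.preconnected ⟨c, hcS⟩ ⟨a, ha⟩
    exact key _ _ w hcY
  · rintro ⟨⟨a0, ha0⟩, hY⟩
    have : Nonempty S := ⟨⟨a0, ha0⟩⟩
    refine SimpleGraph.Connected.mk ?_
    intro u v
    obtain ⟨h1, h2⟩ := hY {b | ∃ h : b ∈ S, (G.induce S).Reachable u ⟨b, h⟩}
      ⟨u.1, ⟨u.2, SimpleGraph.Reachable.refl u⟩, u.2⟩
      (fun a b ha _ hb hab => by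
        obtain ⟨h3, h4⟩ := ha
        refine ⟨hb, h4.trans (SimpleGraph.Adj.reachable ?_)⟩
        exact hab) v.1 v.2
    exact h2

end Pool.Agent.H54.MC
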