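import Pool.Agent.H89.MC.Targets

/-!
# Multicolour Poisson matchings: module MTC
-/

namespace Pool.Agent.H54.MC

open Classical MeasureTheory ProbabilityTheory Pool.Agent.H96.MC

noncomputable section

variable {d q : ℕ}

theorem pos_inj {V : Finset (Fin q → ℕ)} {ω : Big d q} (h : GoodB V ω) :
    Function.Injective (pos ω) := by
  intro x y hxy
  have h1 : ∀ l, (x.1.1 l : ℝ) + ω.2.1 x l + ω.2.2 l = (y.1.1 l : ℝ) + ω.2.1 y l + ω.2.2 l := by
    intro l
    have := congrArg (fun z : Sp d => z l) hxy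
    exact this
  apply h.1 x y
  funext l
  have h2 := h1 l
  obtain ⟨hx0, hx1⟩ := h.2.1 x l
  obtain ⟨hy0, hy1⟩ := h.2.1 y l
  have h3 : x.1.1 l = y.1.1 l := by
    have a1 : (x.1.1 l : ℝ) - y.1.1 l < 1 := by linarith
    have a2 : (y.1.1 l : ℝ) - x.1.1 l < 1 := by linarith
    have b1 : x.1.1 l - y.1.1 l < 1 := by exact_mod_cast a1
    have b2 : y.1.1 l - x.1.1 l < 1 := by exact_mod_cast a2
    omega
  rw [h3] at h2
  linarith

/-- MTC -/
theorem mtc : T_MTC := by
  intro d q V ω _ hG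
  have hinj := pos_inj hG
  obtain ⟨hmat, hperf⟩ := hG.2.2.2
  refine ⟨hinj, ?_, ?_⟩
  · rintro F ⟨_, x, hx, rfl⟩
    obtain ⟨hxx, hty, hall⟩ := hmat x hx
    refine ⟨hx.image _, ?_, ?_⟩
    · have h1 : ftype (fun i => ptsB V i ω) (famB ω (ω.1.2 x)) = ltype (ω.1.2 x) := by
        funext i
        unfold ftype ltype
        have h2 : ((famB ω (ω.1.2 x) : Finset (Sp d)) : Set (Sp d)) ∩ ptsB V i ω =
            pos ω '' ((ω.1.2 x).filter (fun x => x.1.2 = i) : Set (Pt d q)) := by
          ext z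
          constructor
          · rintro ⟨hz1, _, y', hy'1, hy'2, hy'3⟩
            rw [Finset.mem_coe] at hz1
            unfold famB at hz1
            obtain ⟨y, hy, rfl⟩ := Finset.mem_image.1 hz1
            have h3 := hinj hy'3
            subst h3
            refine ⟨y, ?_, rfl⟩
            rw [Finset.mem_coe, Finset.mem_filter]
            exact ⟨hy, hy'2⟩
          · rintro ⟨y, hy, rfl⟩
            rw [Finset.mem_coe, Finset.mem_filter] at hy
            refine ⟨?_, hG, y, (hall y hy.1).2, hy.2, rfl⟩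
            rw [Finset.mem_coe]
            exact Finset.mem_image_of_mem _ hy.1
        rw [h2, Set.ncard_image_of_injective _ hinj, Set.ncard_coe_finset]
      rw [h1]
      exact hty
    · intro z hz
      obtain ⟨y, hy, rfl⟩ := Finset.mem_image.1 hz
      exact ⟨y.1.2, hG, y, (hall y hy).2, rfl, rfl⟩
  · rintro i z ⟨_, x, hx1, hx2, rfl⟩
    have hne := hperf x hx1
    obtain ⟨hxx, hty, hall⟩ := hmat x hne
    refine ⟨famB ω (ω.1.2 x), ⟨⟨hG, x, hne, rfl⟩, Finset.mem_image_of_mem _ hxx⟩, ?_⟩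
    rintro F ⟨⟨_, x', hx', rfl⟩, hF⟩
    obtain ⟨y, hy, hy'⟩ := Finset.mem_image.1 hF
    have h3 := hinj hy'
    subst h3
    rw [((hmat x' hx').2.2 y hy).1]

end

end Pool.Agent.H54.MC

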